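import Pool.Agent.Helper741.UHF.Exist

/-!
# Unital embeddings of nonseparable UHF-type tensor products

For all cardinals `κ < κ'` with `κ'` infinite: if `⨂_{κ'} M_2` embeds unitally into
`A ⊗ ⨂_κ M_2`, where `A = ⨂_{i ∈ I} M_{n_i}`, then `⨂_κ M_2` (and even `⨂_{κ'} M_2`) embeds
unitally into `A`.
-/

universe u

open Cardinal Pool.Agent.Helper741.UHF

namespace Pool.Agent.Results.MP_0dad12_an.Embeddings

/-- The assertion of the question for the cardinals `κ = #K` and `κ' = #K'`: for all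
`A = ⨂_{i ∈ I} M_{n_i}(ℂ)`, `B = ⨂_K M_2(ℂ)`, `B' = ⨂_{K'} M_2(ℂ)` and `E = A ⊗ B`, if `B'`
embeds unitally into `E` then `B` embeds unitally into `A`. -/
def Q1 (K K' : Type u) : Prop :=
  ∀ (I : Type u) (n : I → ℕ), (∀ i, 0 < n i) →
    ∀ (A B B' E : Type u) [CStarAlgebra A] [CStarAlgebra B] [CStarAlgebra B'] [CStarAlgebra E],
      IsMatrixTensor n A → IsMatrixTensor (fun _ : K => 2) B →
      IsMatrixTensor (fun _ : K' => 2) B' → IsCStarTensor A B E →
      EmbedsUnitally B' E → EmbedsUnitally B A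

theorem q1_of_le {K K' : Type u} (hlt : #K < #K') (h2 : #K + #K ≤ #K') : Q1 K K' := by
  intro I n hn A B B' E _ _ _ _ hA hB hB' hE hemb
  rw [embeds_tensor_iff hn hA hB hB' hE] at hemb
  rw [embeds_iff hn hA hB]
  exact card_general hlt h2 hemb

theorem le_of_q1 {K K' : Type u} (hlt : #K < #K') (h : Q1 K K') : #K + #K ≤ #K' := by
  by_contra hcon
  push Not at hcon
  have hK' : #K' < ℵ₀ := by
    by_contra hinf
    push Not at hinf
    exact absurd (add_lt_of_lt hinf hlt hlt) (not_lt.mpr hcon.le)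
  have hK : #K < ℵ₀ := hlt.trans hK'
  obtain ⟨k, hk⟩ := lt_aleph0.mp hK
  obtain ⟨k', hk'⟩ := lt_aleph0.mp hK'
  rw [hk, hk'] at hlt
  rw [hk, hk'] at hcon
  have h1 : k < k' := by exact_mod_cast hlt
  have h2 : k' < k + k := by exact_mod_cast hcon
  let I : Type u := ULift.{u} (Fin (k' - k))
  obtain ⟨A, B, E, iA, iB, iE, hA, hB, hE⟩ := exists_tensor_all (I := I) (K := K)
    (fun _ => 2) (fun _ => 2) (fun _ => by norm_num) (fun _ => by norm_num)
  obtain ⟨B', iB', hB'⟩ := exists_isMatrixTensor (fun _ : K' => 2) (fun _ => by norm_num)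
  have hw : #(Σ _ : I, Fin (padicValNat 2 2)) = ((k' - k : ℕ) : Cardinal.{u}) := by
    have : padicValNat 2 2 = 1 := by simp
    rw [this]
    rw [Cardinal.mk_fintype]
    simp [I]
  have hemb : EmbedsUnitally B' E := by
    rw [embeds_tensor_iff (n := fun _ : I => 2) (fun _ => by norm_num) hA hB hB' hE, hw, hk, hk']
    exact_mod_cast (by omega : k' ≤ k' - k + k)
  have := h I (fun _ => 2) (fun _ => by norm_num) A B B' E hA hB hB' hE hemb
  rw [embeds_iff (n := fun _ : I => 2) (fun _ => by norm_num) hA hB, hw, hk] at this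
  have h3 : k ≤ k' - k := by exact_mod_cast this
  omega

/-- **Main result.** -/
theorem result :
    (∀ K K' : Type u, #K < #K' → Infinite K' → Q1 K K') ∧
    (∀ K K' : Type u, #K < #K' → (Q1 K K' ↔ #K + #K ≤ #K')) ∧
    (∀ (J K : Type u) (n : J → ℕ), (∀ j, 0 < n j) →
      ∀ (E B : Type u) [CStarAlgebra E] [CStarAlgebra B],
        IsMatrixTensor n E → IsMatrixTensor (fun _ : K => 2) B →
        (EmbedsUnitally B E ↔ #K ≤ #(Σ j, Fin (padicValNat 2 (n j))))) ∧
    (∀ (J : Type u) (n : J → ℕ), (∀ j, 0 < n j) →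
      (∃ (E : Type u) (_ : CStarAlgebra E), IsMatrixTensor n E) ∧
      ∀ (E F : Type u) [CStarAlgebra E] [CStarAlgebra F],
        IsMatrixTensor n E → IsMatrixTensor n F → Nonempty (E ≃⋆ₐ[ℂ] F)) ∧
    (∀ (I K : Type u) (n : I → ℕ) (m : K → ℕ), (∀ i, 0 < n i) → (∀ k, 0 < m k) →
      ∀ (A B E : Type u) [CStarAlgebra A] [CStarAlgebra B] [CStarAlgebra E],
        IsMatrixTensor n A → IsMatrixTensor m B →
        (IsCStarTensor A B E ↔ IsMatrixTensor (Sum.elim n m) E)) := by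
  refine ⟨fun K K' hlt hinf => q1_of_le hlt ?_, fun K K' hlt =>
    ⟨le_of_q1 hlt, q1_of_le hlt⟩, fun J K n hn E B _ _ hE hB => embeds_iff hn hE hB,
    fun J n hn => ⟨exists_isMatrixTensor n hn, fun E F _ _ hE hF =>
      isMatrixTensor_unique hn hE hF⟩, fun I K n m hn hm A B E _ _ _ hA hB =>
      isCStarTensor_iff hn hm hA hB⟩
  exact (add_lt_of_lt (aleph0_le_mk K') hlt hlt).le

end Pool.Agent.Results.MP_0dad12_an.Embeddings
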